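import Pool.Agent.L5helper98.CG.Defs

set_option autoImplicit false

open MeasureTheory ProbabilityTheory Filter Topology Set
open scoped ENNReal RealInnerProductSpace Matrix

namespace Pool.Agent.L5helper58.CG

open Pool.Agent.L5helper98.CG

/-- The moment generating function of a linear functional of a centred Gaussian vector. -/
theorem mgf_lin {n : ℕ} {C : Matrix (Fin n) (Fin n) ℝ} (hC : C.PosSemidef)
    (u : EuclideanSpace ℝ (Fin n)) (s : ℝ) :
    mgf (fun x : EuclideanSpace ℝ (Fin n) => ⟪u, x⟫) (multivariateGaussian 0 C) s =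
      Real.exp (s ^ 2 * (u.ofLp ⬝ᵥ C *ᵥ u.ofLp) / 2) := by
  set γ := multivariateGaussian (0 : EuclideanSpace ℝ (Fin n)) C with hγ
  have h1 : γ.map (innerSL ℝ u) =
      gaussianReal (γ[innerSL ℝ u]) (Var[innerSL ℝ u; γ]).toNNReal :=
    IsGaussian.map_eq_gaussianReal _
  have hmean : γ[innerSL ℝ u] = 0 := by
    have h2 : ∫ x, (innerSL ℝ u) x ∂γ = (innerSL ℝ u) (∫ x, x ∂γ) :=
      ContinuousLinearMap.integral_comp_comm _ IsGaussian.integrable_fun_id
    rw [hγ, integral_id_multivariateGaussian] at h2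
    simpa using h2
  have hvar : Var[innerSL ℝ u; γ] = u.ofLp ⬝ᵥ C *ᵥ u.ofLp := by
    have h3 := covarianceBilin_multivariateGaussian (μ := (0 : EuclideanSpace ℝ (Fin n))) hC u u
    rw [covarianceBilin_self IsGaussian.memLp_two_id] at h3
    rw [← h3]
    rfl
  have hnn : 0 ≤ u.ofLp ⬝ᵥ C *ᵥ u.ofLp := by
    rw [← hvar]; exact variance_nonneg _ _
  have h4 := mgf_gaussianReal (p := γ) (X := fun x => (innerSL ℝ u) x) (by exact h1) s
  rw [hmean, hvar] at h4
  have h5 : mgf (fun x : EuclideanSpace ℝ (Fin n) => ⟪u, x⟫) γ s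
      = mgf (fun x => (innerSL ℝ u) x) γ s := rfl
  rw [h5, h4, Real.coe_toNNReal _ hnn]
  congr 1
  ring

theorem integral_exp_lin {n : ℕ} {C : Matrix (Fin n) (Fin n) ℝ} (hC : C.PosSemidef)
    (u : EuclideanSpace ℝ (Fin n)) :
    ∫ x : EuclideanSpace ℝ (Fin n), Real.exp ⟪u, x⟫ ∂(multivariateGaussian 0 C) =
      Real.exp ((u.ofLp ⬝ᵥ C *ᵥ u.ofLp) / 2) := by
  have h := mgf_lin hC u 1
  simpa [mgf] using h

theorem integrable_exp_lin {n : ℕ} {C : Matrix (Fin n) (Fin n) ℝ} (hC : C.PosSemidef)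
    (u : EuclideanSpace ℝ (Fin n)) :
    Integrable (fun x : EuclideanSpace ℝ (Fin n) => Real.exp ⟪u, x⟫)
      (multivariateGaussian 0 C) := by
  by_contra h
  have h1 := integral_exp_lin hC u
  rw [integral_undef h] at h1
  exact absurd h1 (Real.exp_pos _).ne

theorem TILT1_holds : St_TILT1 := by
  intro n C hC i₀ a G hG
  set γ := multivariateGaussian (0 : EuclideanSpace ℝ (Fin n)) C with hγ
  set e : EuclideanSpace ℝ (Fin n) := EuclideanSpace.single i₀ (1 : ℝ) with he
  set v : EuclideanSpace ℝ (Fin n) := WithLp.toLp 2 (fun i => a * C i i₀) with hv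
  let f : EuclideanSpace ℝ (Fin n) → ℝ := fun x => ⟪a • e, x⟫
  have hf : ∀ x, f x = a * x i₀ := by
    intro x
    show ⟪a • e, x⟫ = a * x i₀
    rw [inner_smul_left, he, EuclideanSpace.inner_single_left]
    simp
  have hsym : ∀ i j, C i j = C j i := by
    intro i j
    have := hC.isHermitian.apply i j
    simpa using this.symm
  -- the quadratic form
  have hQ : ∀ (t : EuclideanSpace ℝ (Fin n)) (s : ℝ),
      ((s • t + a • e).ofLp ⬝ᵥ C *ᵥ (s • t + a • e).ofLp) =
        s ^ 2 * (t.ofLp ⬝ᵥ C *ᵥ t.ofLp) + 2 * s * ⟪v, t⟫ + a ^ 2 * C i₀ i₀ := by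
    intro t s
    have h1 : (s • t + a • e).ofLp = s • t.ofLp + a • (Pi.single i₀ (1 : ℝ) : Fin n → ℝ) := by
      ext i
      simp [he, Pi.single_apply]
    have h2 : C *ᵥ (Pi.single i₀ (1 : ℝ) : Fin n → ℝ) = fun i => C i i₀ := by
      ext i
      simp
    have h3 : (Pi.single i₀ (1 : ℝ) : Fin n → ℝ) ⬝ᵥ (C *ᵥ t.ofLp) = ∑ i, C i i₀ * t i := by
      rw [single_one_dotProduct, Matrix.mulVec, dotProduct]
      exact Finset.sum_congr rfl (fun i _ => by rw [hsym i₀ i])
    have h4 : t.ofLp ⬝ᵥ (fun i => C i i₀) = ∑ i, C i i₀ * t i := by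
      rw [dotProduct]
      exact Finset.sum_congr rfl (fun i _ => mul_comm _ _)
    have h5 : ⟪v, t⟫ = a * ∑ i, C i i₀ * t i := by
      rw [PiLp.inner_apply, Finset.mul_sum]
      refine Finset.sum_congr rfl (fun i _ => ?_)
      simp [hv]
      ring
    rw [h1, Matrix.mulVec_add, Matrix.mulVec_smul, Matrix.mulVec_smul, h2, dotProduct_add,
      add_dotProduct, add_dotProduct, h5]
    simp only [smul_dotProduct, dotProduct_smul, smul_eq_mul]
    rw [h3, h4, single_one_dotProduct]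
    ring
  have hQ0 : ((a • e).ofLp ⬝ᵥ C *ᵥ (a • e).ofLp) = a ^ 2 * C i₀ i₀ := by
    have := hQ 0 0
    simpa using this
  have hint : Integrable (fun x => Real.exp (f x)) γ := integrable_exp_lin hC (a • e)
  have hZ : ∫ x, Real.exp (f x) ∂γ = Real.exp (a ^ 2 * C i₀ i₀ / 2) := by
    have := integral_exp_lin hC (a • e)
    rw [hQ0] at this
    exact this
  have : IsProbabilityMeasure (γ.tilted f) := isProbabilityMeasure_tilted hint
  have hmeas : Measurable (fun x : EuclideanSpace ℝ (Fin n) => x + v) := by fun_prop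
  have : IsProbabilityMeasure (γ.map (fun x => x + v)) :=
    Measure.isProbabilityMeasure_map hmeas.aemeasurable
  have key : γ.tilted f = γ.map (fun x => x + v) := by
    refine Measure.ext_of_charFun (funext fun t => ?_)
    have hmgf1 : ∀ s : ℝ, mgf (fun x : EuclideanSpace ℝ (Fin n) => ⟪t, x⟫) (γ.tilted f) s =
        Real.exp (s ^ 2 * (t.ofLp ⬝ᵥ C *ᵥ t.ofLp) / 2 + s * ⟪v, t⟫) := by
      intro s
      have h1 : mgf (fun x : EuclideanSpace ℝ (Fin n) => ⟪t, x⟫) (γ.tilted f) s
          = (∫ x, Real.exp ((f + fun x => s * ⟪t, x⟫) x) ∂γ) / ∫ x, Real.exp (f x) ∂γ := by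
        rw [← integral_exp_tilted]
        rfl
      have h2 : ∫ x, Real.exp ((f + fun x => s * ⟪t, x⟫) x) ∂γ
          = ∫ x, Real.exp ⟪s • t + a • e, x⟫ ∂γ := by
        refine integral_congr_ae (ae_of_all _ fun x => ?_)
        show Real.exp (⟪a • e, x⟫ + s * ⟪t, x⟫) = Real.exp ⟪s • t + a • e, x⟫
        rw [inner_add_left, inner_smul_left (x := t)]
        simp only [conj_trivial]
        rw [add_comm]
      rw [h1, h2, integral_exp_lin hC, hZ, hQ, ← Real.exp_sub]
      congr 1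
      ring
    have hmgf2 : ∀ s : ℝ, mgf (fun x : EuclideanSpace ℝ (Fin n) => ⟪t, x⟫)
        (γ.map (fun x => x + v)) s =
        Real.exp (s ^ 2 * (t.ofLp ⬝ᵥ C *ᵥ t.ofLp) / 2 + s * ⟪v, t⟫) := by
      intro s
      have h1 : mgf (fun x : EuclideanSpace ℝ (Fin n) => ⟪t, x⟫) (γ.map (fun x => x + v)) s
          = ∫ x, Real.exp (s * ⟪t, x + v⟫) ∂γ := by
        unfold mgf
        rw [integral_map hmeas.aemeasurable]
        exact (Continuous.aestronglyMeasurable (by fun_prop))
      have h2 : ∫ x, Real.exp (s * ⟪t, x + v⟫) ∂γ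
          = Real.exp (s * ⟪v, t⟫) * ∫ x, Real.exp (s * ⟪t, x⟫) ∂γ := by
        rw [← integral_const_mul]
        refine integral_congr_ae (ae_of_all _ fun x => ?_)
        show Real.exp (s * ⟪t, x + v⟫) = Real.exp (s * ⟪v, t⟫) * Real.exp (s * ⟪t, x⟫)
        rw [← Real.exp_add, inner_add_right, real_inner_comm v t]
        congr 1
        ring
      have h3 : ∫ x, Real.exp (s * ⟪t, x⟫) ∂γ = Real.exp (s ^ 2 * (t.ofLp ⬝ᵥ C *ᵥ t.ofLp) / 2) :=
        mgf_lin hC t s
      rw [h1, h2, h3, ← Real.exp_add]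
      congr 1
      ring
    have hmgf : mgf (fun x : EuclideanSpace ℝ (Fin n) => ⟪t, x⟫) (γ.tilted f) =
        mgf (fun x : EuclideanSpace ℝ (Fin n) => ⟪t, x⟫) (γ.map (fun x => x + v)) := by
      funext s
      rw [hmgf1, hmgf2]
    have hset : integrableExpSet (fun x : EuclideanSpace ℝ (Fin n) => ⟪t, x⟫) (γ.tilted f)
        = Set.univ := by
      refine Set.eq_univ_of_forall fun s => ?_
      show Integrable _ _
      by_contra h
      have h1 := hmgf1 s
      unfold mgf at h1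
      rw [integral_undef h] at h1
      exact absurd h1 (Real.exp_pos _).ne
    have h6 := eqOn_complexMGF_of_mgf hmgf (x := Complex.I) (by
      rw [hset]; simp)
    have h7 : ∀ ν : Measure (EuclideanSpace ℝ (Fin n)),
        charFun ν t = complexMGF (fun x : EuclideanSpace ℝ (Fin n) => ⟪t, x⟫) ν Complex.I := by
      intro ν
      rw [charFun_apply, complexMGF]
      refine integral_congr_ae (ae_of_all _ fun x => ?_)
      show Complex.exp (⟪x, t⟫ * Complex.I) = Complex.exp (Complex.I * ⟪t, x⟫)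
      rw [mul_comm, real_inner_comm]
    rw [h7, h7]
    exact h6
  -- conclusion
  have h8 : ∫⁻ x, ENNReal.ofReal (Real.exp (f x) / ∫ x, Real.exp (f x) ∂γ) *
      G (fun i => x i) ∂γ = ∫⁻ x, G (fun i => x i + a * C i i₀) ∂γ := by
    rw [← lintegral_tilted, key, lintegral_map _ hmeas]
    · rfl
    · exact hG.comp (by fun_prop)
  rw [← h8, ← lintegral_const_mul]
  · refine lintegral_congr fun x => ?_
    rw [hZ, ← mul_assoc, ← ENNReal.ofReal_mul (Real.exp_pos _).le, hf]
    congr 2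
    field_simp
  · refine Measurable.mul ?_ (hG.comp (by fun_prop))
    refine ENNReal.measurable_ofReal.comp ?_
    exact ((Continuous.measurable (by fun_prop))).div_const _

end Pool.Agent.L5helper58.CG
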